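import Pool.Agent.W901.RL.Stm
import Pool.Agent.H579R2.Spt.Main2

/-!
# The randomised pruned search is polynomial
-/

set_option autoImplicit false

namespace Pool.Agent.W320.RL

open Pool.Agent.NPC Pool.Agent.H579R2.Spt Pool.Agent.W901.RL

variable {α : Type} [TEnc α]

theorem e1 {α β : Type} [TEnc α] [TEnc β] : Poly (fun q : α × β => q.1) :=
  NPC.Poly.fst NPC.Poly.id

theorem e2 {α β : Type} [TEnc α] [TEnc β] : Poly (fun q : α × β => q.2) :=
  NPC.Poly.snd NPC.Poly.id

theorem blk_poly {D i : α → ℕ} {r : α → List Bool} (hD : Poly D) (hi : Poly i) (hr : Poly r) :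
    Poly (fun a => blk (D a) (i a) (r a)) := by
  unfold blk
  exact take_poly' (drop_poly' hr (NPC.Poly.mul hi hD)) hD

theorem lift_poly {p : α → ℕ} {u : α → List Bool} (hp : UPoly p) (hu : Poly u) :
    Poly (fun a => lift (p a) (u a)) := by
  unfold lift
  refine NPC.Poly.flatMap (l := fun a => List.range (p a))
    (F := fun a i => (List.range (p a)).map (fun c => decide (hv (p a) i (u a) = c))) hp.range ?_
  refine NPC.Poly.map (l := fun q : α × ℕ => List.range (p q.1))
    (F := fun q c => decide (hv (p q.1) q.2 (u q.1) = c)) (hp.comp e1).range ?_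
  exact NPC.Poly.decide_eq (hv_poly (hp.toPoly.comp (e1.comp e1)) (e2.comp e1)
    (hu.comp (e1.comp e1))) e2

theorem lbl_poly {p : α → ℕ} {s u : α → List Bool} (hp : UPoly p) (hs : Poly s) (hu : Poly u) :
    Poly (fun a => lbl (p a) (s a) (u a)) := by
  unfold lbl
  exact ip_poly hs (lift_poly hp hu)

theorem row_poly {p m : α → ℕ} {σ u : α → List Bool} (hp : UPoly p) (hm : UPoly m) (hσ : Poly σ)
    (hu : Poly u) : Poly (fun a => row (p a) (m a) (σ a) (u a)) := by
  unfold row
  refine NPC.Poly.map (l := fun a => List.range (m a))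
    (F := fun a i => lbl (p a) (blk (p a * p a) i (σ a)) (u a)) hm.range ?_
  exact lbl_poly (hp.comp e1) (blk_poly (NPC.Poly.mul (hp.toPoly.comp e1) (hp.toPoly.comp e1)) e2
    (hσ.comp e1)) (hu.comp e1)

theorem pairBits_poly {x w : α → List Bool} (hx : Poly x) (hw : Poly w) :
    Poly (fun a => pairBits (x a) (w a)) := by
  unfold pairBits
  refine NPC.Poly.append (l := fun a => (x a).flatMap (fun b => [true, b]))
    (l' := fun a => false :: w a) ?_ (NPC.Poly.cons (NPC.Poly.const false) hw)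
  exact NPC.Poly.flatMap (l := x) (F := fun _ b => [true, b]) hx
    (NPC.Poly.cons (NPC.Poly.const true) (NPC.Poly.cons e2 (NPC.Poly.const [])))

section

variable {Ψ : List (Option Bool) → List Bool → ℕ} {g : List Bool → List (Option Bool)}
  {qf : List Bool × (ℕ × (ℕ × List Bool)) → List Bool}

theorem score_poly (hΨ : Poly (fun q : List (Option Bool) × List Bool => Ψ q.1 q.2)) (hg : Poly g)
    (ℓ : Polynomial ℕ) {R Lc : α → ℕ} {qs : α → List (List Bool)} {coins w : α → List Bool}
    (hR : UPoly R) (hL : Poly Lc) (hqs : Poly qs) (hc : Poly coins) (hw : Poly w) :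
    Poly (fun a => score Ψ g ℓ (R a) (Lc a) (qs a) (coins a) (w a)) := by
  unfold score
  refine NPC.Poly.sum (l := fun a => (List.range (R a)).map (fun t =>
    Ψ (g (pairBits (bits (qs a)) ((blk (Lc a) t (coins a)).take
      (ℓ.eval (bits (qs a)).length)))) (w a))) ?_
  refine NPC.Poly.map (l := fun a => List.range (R a)) (F := fun a t =>
    Ψ (g (pairBits (bits (qs a)) ((blk (Lc a) t (coins a)).take
      (ℓ.eval (bits (qs a)).length)))) (w a)) hR.range ?_
  have hb : Poly (fun q : α × ℕ => bits (qs q.1)) := bits_poly.comp (hqs.comp e1)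
  have hlen : Poly (fun q : α × ℕ => ℓ.eval (bits (qs q.1)).length) :=
    ((UPoly.length hb).eval ℓ).toPoly
  exact hΨ.comp (NPC.Poly.pair (hg.comp (pairBits_poly hb
    (take_poly' (blk_poly (hL.comp e1) e2 (hc.comp e1)) hlen))) (hw.comp e1))

/-- the parameters are computable -/
structure PP (P : α → Par) : Prop where
  n : UPoly (fun x => (P x).n)
  p : UPoly (fun x => (P x).p)
  m : UPoly (fun x => (P x).m)
  R : UPoly (fun x => (P x).R)
  Lc : UPoly (fun x => (P x).Lc)
  N0 : UPoly (fun x => (P x).N0)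
  Z : UPoly (fun x => (P x).Z)
  Th : Poly (fun x => (P x).Th)

theorem PP.comp {β : Type} [TEnc β] {P : α → Par} (h : PP P) {f : β → α} (hf : Poly f) :
    PP (fun b => P (f b)) :=
  ⟨h.n.comp hf, h.p.comp hf, h.m.comp hf, h.R.comp hf, h.Lc.comp hf, h.N0.comp hf, h.Z.comp hf,
    NPC.Poly.comp (g := fun x => (P x).Th) h.Th hf⟩

theorem qlist_poly (hq : Poly qf) {P : α → Par} (hP : PP P) {x : α → List Bool} {j : α → ℕ}
    {σ : α → List Bool} (hx : Poly x) (hj : Poly j) (hσ : Poly σ) :
    Poly (fun a => qlist qf (P a) (x a) (j a) (σ a)) := by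
  unfold qlist
  refine NPC.Poly.map (l := fun a => List.range (P a).m)
    (F := fun a i => qf (x a, ((P a).p, (j a, blk ((P a).p * (P a).p) i (σ a))))) hP.m.range ?_
  have hp : Poly (fun q : α × ℕ => (P q.1).p) := hP.p.toPoly.comp e1
  exact hq.comp (NPC.Poly.pair (hx.comp e1) (NPC.Poly.pair hp
    (NPC.Poly.pair (hj.comp e1) (blk_poly (NPC.Poly.mul hp hp) e2 (hσ.comp e1)))))

theorem keepS_poly (hΨ : Poly (fun q : List (Option Bool) × List Bool => Ψ q.1 q.2)) (hg : Poly g)
    (ℓ : Polynomial ℕ) (hq : Poly qf) {P : α → Par} (hP : PP P) {x σ u : α → List Bool}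
    (hx : Poly x) (hσ : Poly σ) (hu : Poly u) :
    Poly (fun a => keepS Ψ g ℓ qf (P a) (x a) (σ a) (u a)) := by
  unfold keepS
  have hp := hP.p.toPoly
  exact NPC.Poly.decide_le hP.Th (score_poly hΨ hg ℓ hP.R hP.Lc.toPoly
    (qlist_poly hq hP hx (NPC.Poly.length hu) hσ)
    (drop_poly' hσ (NPC.Poly.mul hP.m.toPoly (NPC.Poly.mul hp hp)))
    (row_poly hP.p hP.m hσ hu))

theorem rnd_poly (hΨ : Poly (fun q : List (Option Bool) × List Bool => Ψ q.1 q.2)) (hg : Poly g)
    (ℓ : Polynomial ℕ) (hq : Poly qf) {P : α → Par} (hP : PP P) {x σ : α → List Bool}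
    {W : α → List (List Bool)} (hx : Poly x) (hσ : Poly σ) (hW : Poly W) :
    Poly (fun a => rnd Ψ g ℓ qf (P a) (x a) (σ a) (W a)) := by
  unfold rnd
  refine NPC.Poly.ite (p := fun a => (W a).length ≤ (P a).N0)
    (NPC.Poly.decide_le (NPC.Poly.length hW) hP.N0.toPoly) hW ?_
  refine NPC.Poly.filter (l := W) (p := fun a u => keepS Ψ g ℓ qf (P a) (x a) (σ a) u) hW ?_
  exact keepS_poly hΨ hg ℓ hq (hP.comp e1) (hx.comp e1) (hσ.comp e1) e2

theorem stp_poly (hΨ : Poly (fun q : List (Option Bool) × List Bool => Ψ q.1 q.2)) (hg : Poly g)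
    (ℓ : Polynomial ℕ) (hq : Poly qf) {P : α → Par} (hP : PP P) {x σ : α → List Bool} {t : α → ℕ}
    {W : α → List (List Bool)} (hx : Poly x) (ht : Poly t) (hσ : Poly σ) (hW : Poly W) :
    Poly (fun a => stp Ψ g ℓ qf (P a) (x a) (t a) (σ a) (W a)) := by
  unfold stp
  refine rnd_poly hΨ hg ℓ hq hP hx hσ (NPC.Poly.ite (p := fun a => t a % (P a).Z = 0)
    (NPC.Poly.decide_eq (NPC.Poly.mod ht hP.Z.toPoly) (NPC.Poly.const 0))
    (children_poly (take_poly' hW hP.N0.toPoly)) hW)

theorem children_length (W : List (List Bool)) : (children W).length = 2 * W.length := by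
  unfold children
  induction W with
  | nil => simp
  | cons u W ih =>
    rw [List.flatMap_cons, List.length_append, ih]
    simp
    ring

/-- bounds for the states -/
theorem inv (Ψ : List (Option Bool) → List Bool → ℕ) (g : List Bool → List (Option Bool))
    (ℓ : Polynomial ℕ) (qf : List Bool × (ℕ × (ℕ × List Bool)) → List Bool) (P : Par)
    (x ρ : List Bool) (k : ℕ) :
    ((List.range k).foldl (fun W t => stp Ψ g ℓ qf P x t (blk P.bl t ρ) W) [[]]).length ≤
      2 * P.N0 + 1 ∧
    ∀ u ∈ (List.range k).foldl (fun W t => stp Ψ g ℓ qf P x t (blk P.bl t ρ) W) [[]],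
      u.length ≤ k := by
  induction k with
  | zero => simp
  | succ k ih =>
    rw [List.range_succ, List.foldl_append, List.foldl_cons, List.foldl_nil]
    obtain ⟨h1, h2⟩ := ih
    set W := (List.range k).foldl (fun W t => stp Ψ g ℓ qf P x t (blk P.bl t ρ) W) [[]]
    have key : (if k % P.Z = 0 then children (W.take P.N0) else W).length ≤ 2 * P.N0 + 1 ∧
        ∀ u ∈ (if k % P.Z = 0 then children (W.take P.N0) else W), u.length ≤ k + 1 := by
      split_ifs with hk
      · constructor
        · rw [children_length, List.length_take]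
          have := min_le_left P.N0 W.length
          omega
        · intro u hu
          obtain ⟨v, hv, b, rfl⟩ := mem_children.1 hu
          have := h2 v (List.mem_of_mem_take hv)
          simp
          exact this
      · exact ⟨h1, fun u hu => (h2 u hu).trans (Nat.le_succ _)⟩
    unfold stp rnd
    split_ifs at key ⊢ with hk hl hl
    · exact key
    · exact ⟨(List.length_filter_le _ _).trans key.1, fun u hu => key.2 u (List.mem_filter.1 hu).1⟩
    · exact key
    · exact ⟨(List.length_filter_le _ _).trans key.1, fun u hu => key.2 u (List.mem_filter.1 hu).1⟩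

theorem bl_poly {P : α → Par} (hP : PP P) : Poly (fun a => (P a).bl) := by
  unfold Par.bl
  have hp := hP.p.toPoly
  exact NPC.Poly.add (NPC.Poly.mul hP.m.toPoly (NPC.Poly.mul hp hp))
    (NPC.Poly.mul hP.R.toPoly hP.Lc.toPoly)

theorem runS_poly (hΨ : Poly (fun q : List (Option Bool) × List Bool => Ψ q.1 q.2)) (hg : Poly g)
    (ℓ : Polynomial ℕ) (hq : Poly qf) {P : α → Par} (hP : PP P) {x ρ : α → List Bool}
    {T : α → ℕ} (hx : Poly x) (hρ : Poly ρ) (hT : UPoly T) :
    Poly (fun a => runS Ψ g ℓ qf (P a) (x a) (T a) (ρ a)) := by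
  unfold runS
  obtain ⟨qN, hqN⟩ := NPC.Poly.sz_le hP.N0
  obtain ⟨qT, hqT⟩ := NPC.Poly.sz_le hT
  have hNle : ∀ a, (P a).N0 ≤ qN.eval (sz a) := by
    intro a
    have h1 : sz (List.replicate (P a).N0 ()) ≤ qN.eval (sz a) := hqN a
    have h2 := length_lt_sz (List.replicate (P a).N0 ())
    rw [List.length_replicate] at h2
    omega
  have hTle : ∀ a, T a ≤ qT.eval (sz a) := by
    intro a
    have h1 : sz (List.replicate (T a) ()) ≤ qT.eval (sz a) := hqT a
    have h2 := length_lt_sz (List.replicate (T a) ())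
    rw [List.length_replicate] at h2
    omega
  refine NPC.Poly.foldl (l := fun a => List.range (T a)) (s := fun _ => [[]])
    (F := fun a W t => stp Ψ g ℓ qf (P a) (x a) t (blk (P a).bl t (ρ a)) W) hT.range
    (NPC.Poly.const _) ?_ ((Polynomial.C 2 * qN + 1) * (Polynomial.C 4 * qT + 2) + 1) ?_
  · have f1 : Poly (fun p : α × List (List Bool) × ℕ => p.1) := e1
    have f2 : Poly (fun p : α × List (List Bool) × ℕ => p.2.1) := e1.comp e2
    have f3 : Poly (fun p : α × List (List Bool) × ℕ => p.2.2) := e2.comp e2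
    exact stp_poly hΨ hg ℓ hq (hP.comp f1) (hx.comp f1) f3
      (blk_poly ((bl_poly hP).comp f1) f3 (hρ.comp f1)) f2
  · intro a k hk
    rw [List.length_range] at hk
    rw [List.take_range, min_eq_left hk]
    obtain ⟨h1, h2⟩ := inv Ψ g ℓ qf (P a) (x a) (ρ a) k
    set W := (List.range k).foldl
      (fun W t => stp Ψ g ℓ qf (P a) (x a) t (blk (P a).bl t (ρ a)) W) [[]]
    have h3 := sz_le_length_mul W (4 * k + 1) (fun u hu => by
      have h4 := sz_listBool_le u
      have h5 := h2 u hu
      omega)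
    have h6 := hNle a
    have h7 := hTle a
    simp only [Polynomial.eval_add, Polynomial.eval_mul, Polynomial.eval_C, Polynomial.eval_one,
      Polynomial.eval_ofNat]
    have h8 : W.length ≤ 2 * qN.eval (sz a) + 1 := by omega
    have h9 : 4 * k + 1 + 1 ≤ 4 * qT.eval (sz a) + 2 := by omega
    have h10 := Nat.mul_le_mul h8 h9
    omega

end

theorem poly : S_POLY := by
  intro Ψ g ℓ qf P hΨ hg hq hn hp hm hR hL hN hZ hTh
  have hP : PP P := ⟨hn, hp, hm, hR, hL, hN, hZ, hTh⟩
  unfold cands
  refine NPC.Poly.flatMap (l := fun q : List Bool × List Bool =>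
      runS Ψ g ℓ qf (P q.1) q.1 ((P q.1).n * (P q.1).Z) q.2)
    (F := fun q u => (List.range ((P q.1).n + 1)).map (fun k => u.take k)) ?_ ?_
  · exact runS_poly hΨ hg ℓ hq (hP.comp e1) e1 e2 ((hP.n.comp e1).mul (hP.Z.comp e1))
  · refine NPC.Poly.map (l := fun q : (List Bool × List Bool) × List Bool =>
      List.range ((P q.1.1).n + 1)) (F := fun q k => q.2.take k)
      ((hP.n.comp (e1.comp e1)).add (UPoly.const 1)).range ?_
    exact take_poly' (e2.comp e1) e2

end Pool.Agent.W320.RL
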